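import Mathlib
import Pool.Agent.H15.G.R_seed8.W609.CR.Stm

set_option autoImplicit false

namespace Pool.Agent.W816.CR

open Pool.Agent.W609.CR

theorem trd_aux (F K : Type) [Field F] [Field K] [Algebra F K] (ι : Type) [Fintype ι]
    (x y : ι → K) (hx : AlgebraicIndependent F x)
    (hxy : ∀ i, x i ∈ IntermediateField.adjoin F (Set.range y)) : AlgebraicIndependent F y := by
  set L : IntermediateField F K := IntermediateField.adjoin F (Set.range y) with hL
  have hyL : ∀ i, y i ∈ L := fun i => IntermediateField.subset_adjoin F _ ⟨i, rfl⟩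
  let x' : ι → L := fun i => ⟨x i, hxy i⟩
  let y' : ι → L := fun i => ⟨y i, hyL i⟩
  have hx' : AlgebraicIndependent F x' := by
    apply AlgebraicIndependent.of_comp L.val
    exact hx
  have htop : IntermediateField.adjoin F (Set.range y') = ⊤ := by
    apply IntermediateField.lift_injective L
    rw [IntermediateField.lift_adjoin, IntermediateField.lift_top]
    have hs : (Subtype.val '' Set.range y' : Set K) = Set.range y := by
      ext z
      constructor
      · rintro ⟨w, ⟨i, rfl⟩, rfl⟩
        exact ⟨i, rfl⟩
      · rintro ⟨i, rfl⟩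
        exact ⟨y' i, ⟨i, rfl⟩, rfl⟩
    rw [hs]
  have halg : Algebra.IsAlgebraic (Algebra.adjoin F (Set.range y')) L := by
    rw [← IntermediateField.isAlgebraic_adjoin_iff_top, htop, Algebra.isAlgebraic_iff_isIntegral]
    exact Algebra.isIntegral_of_surjective IntermediateField.topEquiv.surjective
  have hle := hx'.cardinalMk_le_trdeg
  have hb := Algebra.IsAlgebraic.isTranscendenceBasis_of_le_trdeg_of_finite F y' hle
  have hy' := hb.1
  exact hy'.map' (f := L.val) L.val.injective

theorem t_trd : P_TRD := by
  intro K _ _ ι _ x y hx hxy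
  exact trd_aux ℚ K ι x y hx hxy

end Pool.Agent.W816.CR
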